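import Pool.Agent.Helper29.BE.PrimeAvg

/-!
# A positive proportion of the patterns of primes occur very early

Let `r ≥ 1`, a vector of signs and `D > 0` be given. There is `c > 0` such that for all large `M` and all
`H ≥ M ^ 17` with `(log H) ^ r ≤ D M / log M`: for at least `c H ^ r` of the vectors `(h_1, ..., h_r)` of
even numbers up to `H` there is ONE prime `p ≤ M` such that all the numbers `h_j + p` (sign `+`) and
`h_j - p` (sign `-`) are prime. So `M` may be of the order `(log H) ^ r log log H`, and this order is best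
possible: the number of these vectors is at most `2 · 4 ^ r (M / log M) (H / log H) ^ r`.

The proof is the second moment method, with the sharp form of the upper bound sieve for prime pairs and
the moments of the singular factor of the starting library (`Pool.Agent.H197R2.PG`), the upper bound
sieve of the starting library for pairs of primes with any difference
(`Pool.Agent.Helper403.pairs_sieve`) and the form for vectors (`Pool.Agent.Helper29.BE.main3`).
-/

set_option autoImplicit false

open Finset Filter Topology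

namespace Pool.Agent.Results.MP_dddec0_nt.AveragePatterns

/-- The `r`-tuples of even numbers `1 ≤ h j ≤ H` for which there is one prime `p ≤ M` such that every
`p + h j` (if `s j`) and every `h j - p > p` (if not `s j`) is prime. -/
def patterns (r H M : ℕ) (s : Fin r → Bool) : Set (Fin r → ℕ) :=
  {h | (∀ j, 1 ≤ h j ∧ h j ≤ H ∧ Even (h j)) ∧ ∃ p : ℕ, p.Prime ∧ p ≤ M ∧
    ∀ j, if s j = true then (p + h j).Prime else (2 * p < h j ∧ (h j - p).Prime)}

lemma patterns_finite (r H M : ℕ) (s : Fin r → Bool) : (patterns r H M s).Finite := by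
  apply (Finset.finite_toSet (Fintype.piFinset (fun _ : Fin r => Icc 1 H))).subset
  rintro h ⟨h2, -⟩
  rw [mem_coe, Fintype.mem_piFinset]
  intro j
  rw [mem_Icc]
  exact ⟨(h2 j).1, (h2 j).2.1⟩

open Pool.Agent.Helper29.BE in
theorem lower (r : ℕ) (hr : 1 ≤ r) (D : ℝ) (hD : 0 < D) : ∃ c : ℝ, 0 < c ∧ ∃ M₀ : ℕ,
    ∀ M : ℕ, M₀ ≤ M → ∀ H : ℕ, M ^ 17 ≤ H → Real.log H ^ r ≤ D * (M / Real.log M) →
    ∀ s : Fin r → Bool, c * H ^ r ≤ ((patterns r H M s).ncard : ℝ) := by
  classical
  obtain ⟨C, hC, hTP⟩ := TP_avg r hr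
  obtain ⟨c, hc, Y₀, h⟩ := main3 r hr (C * 180 ^ 2) (by positivity) (D * 180) (by positivity)
  obtain ⟨n₁, hn₁⟩ := eventually_atTop.1 TP_many
  refine ⟨c, hc, Y₀ + n₁ + 3, fun M hM H hH hHM s => ?_⟩
  obtain ⟨g1, g2, g3, g4⟩ := hn₁ M (by omega)
  set N : ℕ := Nat.log 4 M / 16 with hN
  have hN0 : (0 : ℝ) < N := by exact_mod_cast g1
  have hM0 : (0 : ℝ) ≤ M := Nat.cast_nonneg _
  have hodd : ∀ p ∈ TP N M, Odd p ∧ p ≤ M := by
    intro p hp
    unfold TP at hp
    rw [mem_filter, mem_Icc] at hp
    exact ⟨hp.2.1.odd_of_ne_two (by omega), hp.1.2⟩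
  have h1 := h M (by omega) H hH (TP N M) (fun _ t => t) s (fun _ => fun a _ b _ hab => hab)
    (fun _ t ht => hodd t ht) (by
      refine hHM.trans ?_
      rw [mul_assoc]
      apply mul_le_mul_of_nonneg_left _ hD.le
      exact (div_le_div_of_nonneg_left hM0 hN0 g3).trans g4)
    (fun _ => by
      refine (hTP N M g1 g2).trans ?_
      rw [mul_assoc]
      apply mul_le_mul_of_nonneg_left _ hC.le
      rw [← mul_pow]
      exact pow_le_pow_left₀ (by positivity) g4 2)
  refine h1.trans ?_
  apply Nat.cast_le.2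
  rw [← Set.ncard_coe_finset]
  apply Set.ncard_le_ncard _ (patterns_finite r H M s)
  intro m hm
  rw [mem_coe] at hm
  unfold Sh2 at hm
  rw [mem_filter, Fintype.mem_piFinset] at hm
  obtain ⟨h2, p, hp, h3⟩ := hm
  have hp' := hp
  unfold TP at hp'
  rw [mem_filter] at hp'
  refine ⟨fun j => ?_, p, hp'.2.1, (hodd p hp).2, h3⟩
  have h4 := h2 j
  rw [mem_filter, mem_Icc] at h4
  exact ⟨h4.1.1, h4.1.2, h4.2⟩

lemma pi_upper : ∃ M₀ : ℕ, ∀ M : ℕ, M₀ ≤ M →
    (Nat.primeCounting M : ℝ) ≤ 2 * (M / Real.log M) ∧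
    (Nat.primeCounting (2 * M) : ℝ) ≤ 4 * (M / Real.log M) := by
  have h1 := Pool.Agent.TH110.Zig.pnt_window 1 2 1 (by norm_num) (by norm_num)
  obtain ⟨M₀, h2⟩ := eventually_atTop.1 (tendsto_natCast_atTop_atTop.eventually h1)
  refine ⟨M₀, fun M hM => ?_⟩
  have h3 := h2 M hM
  have hM0 : (0 : ℝ) ≤ M := Nat.cast_nonneg _
  constructor
  · have a1 := h3 (M : ℝ) (by linarith) (by linarith)
    rw [Nat.floor_natCast] at a1
    have b1 := (abs_le.1 a1).2
    linarith
  · have a1 := h3 ((2 * M : ℕ) : ℝ) (by push_cast; linarith) (by push_cast; linarith)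
    rw [Nat.floor_natCast] at a1
    have b1 := (abs_le.1 a1).2
    have e1 : ((2 * M : ℕ) : ℝ) / Real.log M = 2 * (M / Real.log M) := by
      push_cast
      ring
    rw [e1] at b1
    linarith

/-- the possible values of `h j` for given `p` -/
noncomputable def AA (H p : ℕ) (b : Bool) : Finset ℕ :=
  (Icc 1 H).filter (fun h => if b = true then (p + h).Prime else (2 * p < h ∧ (h - p).Prime))

lemma AA_card {H M p : ℕ} (hp : p ≤ M) (hMH : M ≤ H) (b : Bool) :
    #(AA H p b) ≤ Nat.primeCounting (2 * H) := by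
  classical
  rw [Nat.primeCounting, Nat.primeCounting', Nat.count_eq_card_filter_range]
  rcases b with _ | _
  · apply Finset.card_le_card_of_injOn (fun h => h - p)
    · intro h hh
      rw [mem_coe] at hh
      unfold AA at hh
      rw [mem_filter, mem_Icc, if_neg (by simp)] at hh
      rw [mem_coe, mem_filter, mem_range]
      exact ⟨by simp only; omega, hh.2.2⟩
    · intro h hh h' hh' he
      rw [mem_coe] at hh hh'
      unfold AA at hh hh'
      rw [mem_filter, mem_Icc, if_neg (by simp)] at hh hh'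
      simp only at he
      omega
  · apply Finset.card_le_card_of_injOn (fun h => p + h)
    · intro h hh
      rw [mem_coe] at hh
      unfold AA at hh
      rw [mem_filter, mem_Icc, if_pos rfl] at hh
      rw [mem_coe, mem_filter, mem_range]
      exact ⟨by simp only; omega, hh.2⟩
    · intro h hh h' hh' he
      simp only at he
      omega

theorem upper (r : ℕ) : ∃ M₀ : ℕ, ∀ M : ℕ, M₀ ≤ M → ∀ H : ℕ, M ≤ H → ∀ s : Fin r → Bool,
    ((patterns r H M s).ncard : ℝ) ≤ 2 * 4 ^ r * (M / Real.log M) * (H / Real.log H) ^ r := by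
  classical
  obtain ⟨M₀, hM₀⟩ := pi_upper
  refine ⟨M₀, fun M hM H hMH s => ?_⟩
  obtain ⟨a1, -⟩ := hM₀ M hM
  obtain ⟨-, a2⟩ := hM₀ H (by omega)
  set F : Finset (Fin r → ℕ) := ((Finset.range (M + 1)).filter Nat.Prime).biUnion
    (fun p => Fintype.piFinset (fun j => AA H p (s j))) with hF
  have hsub : patterns r H M s ⊆ (F : Set (Fin r → ℕ)) := by
    rintro h ⟨h2, p, hp, hpM, h3⟩
    rw [mem_coe, hF, mem_biUnion]
    refine ⟨p, ?_, ?_⟩
    · rw [mem_filter, mem_range]
      exact ⟨by omega, hp⟩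
    · rw [Fintype.mem_piFinset]
      intro j
      unfold AA
      rw [mem_filter, mem_Icc]
      exact ⟨⟨(h2 j).1, (h2 j).2.1⟩, h3 j⟩
  have h1 : (patterns r H M s).ncard ≤ Nat.primeCounting M * Nat.primeCounting (2 * H) ^ r := by
    calc (patterns r H M s).ncard ≤ (F : Set (Fin r → ℕ)).ncard :=
          Set.ncard_le_ncard hsub (Finset.finite_toSet F)
      _ = #F := Set.ncard_coe_finset F
      _ ≤ ∑ p ∈ (Finset.range (M + 1)).filter Nat.Prime,
            #(Fintype.piFinset (fun j => AA H p (s j))) := card_biUnion_le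
      _ ≤ ∑ _p ∈ (Finset.range (M + 1)).filter Nat.Prime, Nat.primeCounting (2 * H) ^ r := by
          apply Finset.sum_le_sum
          intro p hp
          rw [mem_filter, mem_range] at hp
          rw [Fintype.card_piFinset]
          calc ∏ j, #(AA H p (s j)) ≤ ∏ _j : Fin r, Nat.primeCounting (2 * H) :=
                Finset.prod_le_prod' fun j _ => AA_card (by omega) hMH (s j)
            _ = _ := by rw [prod_const, card_univ, Fintype.card_fin]
      _ = _ := by
          have e1 : Nat.primeCounting M = #((Finset.range (M + 1)).filter Nat.Prime) := by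
            rw [Nat.primeCounting, Nat.primeCounting', Nat.count_eq_card_filter_range]
          rw [sum_const, smul_eq_mul, e1]
  have h2 : ((patterns r H M s).ncard : ℝ) ≤
      Nat.primeCounting M * (Nat.primeCounting (2 * H) : ℝ) ^ r := by exact_mod_cast h1
  refine h2.trans ?_
  have hl : 0 ≤ (M : ℝ) / Real.log M := div_nonneg (Nat.cast_nonneg _) (Real.log_natCast_nonneg _)
  calc (Nat.primeCounting M : ℝ) * (Nat.primeCounting (2 * H) : ℝ) ^ r
      ≤ (2 * (M / Real.log M)) * (4 * (H / Real.log H)) ^ r := by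
        apply mul_le_mul a1 (pow_le_pow_left₀ (Nat.cast_nonneg _) a2 r) (by positivity)
        positivity
    _ = _ := by
        rw [mul_pow]
        ring

/-- **A positive proportion of the patterns of primes occur very early, and how early.** For all
`r ≥ 1` and `D > 0` there are `c > 0` and `M₀` such that for all `M ≥ M₀` and every vector of signs:
(1) for every `H ≥ M ^ 17` with `(log H) ^ r ≤ D M / log M`, for at least `c H ^ r` of the vectors
`(h_1, ..., h_r)` of even numbers up to `H` there is one prime `p ≤ M` such that all the numbers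
`h_j + p` (sign `+`) and `h_j - p > p` (sign `-`) are prime; (2) for every `H ≥ M` this holds for at
most `2 · 4 ^ r (M / log M) (H / log H) ^ r` vectors. -/
theorem result (r : ℕ) (hr : 1 ≤ r) (D : ℝ) (hD : 0 < D) : ∃ c : ℝ, 0 < c ∧ ∃ M₀ : ℕ,
    ∀ M : ℕ, M₀ ≤ M → ∀ s : Fin r → Bool,
    (∀ H : ℕ, M ^ 17 ≤ H → Real.log H ^ r ≤ D * (M / Real.log M) →
      c * H ^ r ≤ ((patterns r H M s).ncard : ℝ)) ∧
    ∀ H : ℕ, M ≤ H → ((patterns r H M s).ncard : ℝ) ≤
      2 * 4 ^ r * (M / Real.log M) * (H / Real.log H) ^ r := by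
  obtain ⟨c, hc, M₁, h1⟩ := lower r hr D hD
  obtain ⟨M₂, h2⟩ := upper r
  exact ⟨c, hc, M₁ + M₂, fun M hM s => ⟨fun H hH hHM => h1 M (by omega) H hH hHM s,
    fun H hH => h2 M (by omega) H hH s⟩⟩

end Pool.Agent.Results.MP_dddec0_nt.AveragePatterns
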