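import Pool.Agent.Results.MP_dddec0_nt.RoughTripletSigns
import Pool.Agent.V11285.SV

/-!
# Completely multiplicative signs at rough triplets in sparse sequences

Let `a` be `2` or `4`. There is `q ≥ 1` such that for every `c > 1` and every sequence `F` of completely multiplicative functions
with values `1` and `-1` there is a set `E` of Hausdorff dimension less than `1` with the following property for all `α > 0`
outside `E` and every member `f` of `F` for which every interval `(y, y ^ (3/2)]`, `y ≥ y₀`, contains a prime `p ≡ 1 (mod q)`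
with `f p = -1`: for every sign `s` and every `η > 0` there is `δ > 0` such that for at least `N ^ (1 - η)` of the `n ≤ N`, with
`m = ⌊α n ^ c⌋`, the numbers `m`, `m + a`, `m + 6` have no prime factor `≤ m ^ δ` and `f (m) f (m + a) f (m + 6) = s`.
-/

set_option autoImplicit false

namespace Pool.Agent.Results.MP_dddec0_nt.SparseParity

open Filter Finset

/-- `m`, `m + a`, `m + 6` have no prime factor `≤ m ^ δ` and `f (m) f (m + a) f (m + 6) = s`. -/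
def Good (a : ℕ) (f : ℕ → ℤ) (s : ℤ) (δ : ℝ) (m : ℕ) : Prop :=
  (∀ h ∈ ({0, a, 6} : Finset ℕ), ∀ p : ℕ, p.Prime → p ∣ m + h → (m : ℝ) ^ δ < p) ∧
    f m * f (m + a) * f (m + 6) = s

/-- `f` is completely multiplicative with values `1` and `-1`. -/
def MulSign (f : ℕ → ℤ) : Prop :=
  (∀ n, n ≠ 0 → f n = 1 ∨ f n = -1) ∧ ∀ m n, m ≠ 0 → n ≠ 0 → f (m * n) = f m * f n

/-- All intervals `(y, y ^ (3/2)]`, `y` large, contain a prime `p ≡ 1 (mod q)` with `f p = -1`. -/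
def Minus (q : ℕ) (f : ℕ → ℤ) : Prop :=
  ∃ y₀ : ℝ, ∀ y : ℝ, y₀ ≤ y →
    ∃ p : ℕ, p.Prime ∧ y < p ∧ (p : ℝ) ≤ y ^ (3 / 2 : ℝ) ∧ p ≡ 1 [MOD q] ∧ f p = -1

/-- **Signs at rough triplets in sparse sequences.** -/
theorem result (a : ℕ) (ha : a = 2 ∨ a = 4) :
    ∃ q : ℕ, 0 < q ∧ ∀ c : ℝ, 1 < c → ∀ F : ℕ → ℕ → ℤ, ∃ E : Set ℝ, dimH E < 1 ∧ ∀ α : ℝ, 0 < α → α ∉ E →
      ∀ i : ℕ, MulSign (F i) → Minus q (F i) → ∀ s : ℤ, (s = 1 ∨ s = -1) → ∀ η : ℝ, 0 < η →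
        ∃ δ : ℝ, 0 < δ ∧ ∀ᶠ N : ℕ in atTop,
          (N : ℝ) ^ (1 - η) ≤ ({n : ℕ | 1 ≤ n ∧ n ≤ N ∧ Good a (F i) s δ ⌊α * (n : ℝ) ^ c⌋₊}.ncard : ℝ) := by
  obtain ⟨q, hq, H⟩ := RoughTripletSigns.result a ha
  refine ⟨q, hq, fun c hc F => ?_⟩
  have hc0 : 0 < c := by linarith
  obtain ⟨κ₁, hκ₁, hp⟩ := Pool.Agent.V11285.SV.power c hc
  obtain ⟨E, hE, h₁⟩ := hp (fun (i : ℕ × ℤ × ℕ) (m : ℕ) => Good a (F i.1) i.2.1 (1 / ((i.2.2 : ℝ) + 1)) m)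
  refine ⟨E, hE, fun α hα hαE i hf hm s hs η hη => ?_⟩
  obtain ⟨y₀, hy₀⟩ := hm
  set ε : ℝ := min κ₁ (η / (2 * (c + 1))) with hεdef
  have hε : 0 < ε := lt_min hκ₁ (by positivity)
  obtain ⟨δ, hδ, x₀, hx₀⟩ := H ε hε
  obtain ⟨j, hj⟩ := exists_nat_ge (1 / δ)
  have hjδ : 1 / ((j : ℝ) + 1) ≤ δ := by
    rw [div_le_iff₀ hδ] at hj
    rw [div_le_iff₀ (by positivity)]
    nlinarith
  have hφ0 : ∀ᶠ x : ℕ in atTop, (0 : ℝ) < (x : ℝ) ^ ε := by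
    filter_upwards [eventually_ge_atTop 1] with x hx
    have : (0 : ℝ) < x := by exact_mod_cast hx
    positivity
  have hφ1 : ∀ᶠ x : ℕ in atTop, (x : ℝ) ^ ε ≤ (x : ℝ) ^ κ₁ := by
    filter_upwards [eventually_ge_atTop 1] with x hx
    exact Real.rpow_le_rpow_of_exponent_le (by exact_mod_cast hx) (min_le_left _ _)
  have hx : ∀ᶠ x : ℕ in atTop, x₀ ≤ (x : ℝ) := tendsto_natCast_atTop_atTop.eventually (eventually_ge_atTop x₀)
  have a₁ : ∀ᶠ x : ℕ in atTop, 1 * (x : ℝ) / (x : ℝ) ^ ε ≤ (({n : ℕ | 1 ≤ n ∧ n ≤ x ∧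
      Good a (F i) s (1 / ((j : ℝ) + 1)) n}.ncard : ℕ) : ℝ) := by
    filter_upwards [hx, eventually_ge_atTop 1, Pool.Agent.V11285.SS.ev_pow δ y₀ 1 hδ one_pos] with x g1 g2 g3
    have hx1 : (0 : ℝ) < x := by exact_mod_cast g2
    rw [one_mul] at g3
    obtain ⟨p, p1, p2, p3, p4, p5⟩ := hy₀ _ g3
    have h1 := hx₀ x g1 (F i) hf.1 hf.2 ⟨p, p1, p2, by
      rw [← Real.rpow_mul hx1.le] at p3
      rwa [mul_comm (3 / 2 : ℝ) δ], p4, p5⟩ s hs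
    have e : 1 * (x : ℝ) / (x : ℝ) ^ ε = (x : ℝ) ^ (1 - ε) := by
      rw [Real.rpow_sub hx1, Real.rpow_one, one_mul]
    rw [e]
    refine h1.trans ?_
    rw [Nat.cast_le]
    refine Set.ncard_le_ncard ?_ ((Set.finite_Icc 1 x).subset fun n hn => ⟨hn.1, hn.2.1⟩)
    rintro n ⟨q1, q2, q3, q4⟩
    have hn1 : (1 : ℝ) ≤ n := by exact_mod_cast q1
    refine ⟨q1, by exact_mod_cast q2, fun h hh p hp hd => lt_of_le_of_lt ?_ (q3 h hh p hp hd), q4⟩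
    exact (Real.rpow_le_rpow_of_exponent_le hn1 hjδ).trans (Real.rpow_le_rpow (by linarith) q2 hδ.le)
  have b₁ := h₁ α hα hαE (i, s, j) 1 (fun x : ℕ => (x : ℝ) ^ ε) one_pos hφ0 hφ1 a₁
  refine ⟨1 / ((j : ℝ) + 1), by positivity, ?_⟩
  filter_upwards [b₁, Pool.Agent.V11285.SV.final_pow hα hc hη hε (min_le_right _ _)] with N g1 g3
  exact g3.trans g1

end Pool.Agent.Results.MP_dddec0_nt.SparseParity
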