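import Pool.Agent.V11237.LP.PtShort

set_option autoImplicit false

/-!
# Almost prime triplets of both shapes in all short intervals: their number and the laws of their gaps
-/

namespace Pool.Agent.Results.MP_dddec0_nt.TripletLawsShortIntervals

open Finset
open Pool.Agent.V11237.LP.Pt

/-- **Theorem.** Let `h` be one of the shapes `(0, 2, 6)` and `(0, 4, 6)` and let `c = 11, 17` for the first
shape and `c = 7, 13` for the second one. If `n > 5`, `n ≡ c` modulo `30`, then the only numbers `n + i`,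
`0 ≤ i ≤ 6`, which can be prime are the three `n + h j`. Let `θ > 0`, `l₀`, `x₀` and `ε > 0`. There is
`r₀` such that for all `r ≥ r₀` and all large `N` the following holds. Call `n ≡ c` modulo `30` good if no
`n + h j` has a prime factor `p ≤ N ^ (1 / r)`; for `n ≤ N` the three numbers then have at most `r` prime
factors. In EVERY interval `(u, u + Y]` with `Y ≥ N ^ θ`, `u ≥ 30`, and for all `l`, `T` with `l ≤ l₀` or
`T V ≤ x₀` the number of the good `n` with fewer than `l` good integers in `[n - T, n)` is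
`Y V ∑_{j < l} e ^ (-T V) (T V) ^ j / j!` up to at most `ε Y V`, where `V > 0` is the product of `1 - 3 / p`
over the primes `5 < p ≤ N ^ (1 / r)`, divided by `30`. -/
theorem result (h : Fin 3 → ℕ) (c : ℕ)
    (hc : (h = ![0, 2, 6] ∧ (c = 11 ∨ c = 17)) ∨ (h = ![0, 4, 6] ∧ (c = 7 ∨ c = 13)))
    (θ : ℝ) (hθ : 0 < θ) (l₀ : ℕ) (x₀ ε : ℝ) (hε : 0 < ε) :
    (∀ n : ℕ, 5 < n → n % 30 = c → ∀ i ≤ 6, (n + i).Prime → ∃ j, i = h j) ∧
    ∃ r₀ : ℕ, 2 ≤ r₀ ∧ ∀ r : ℕ, r₀ ≤ r → ∃ N₀ : ℕ, ∀ N : ℕ, N₀ ≤ N →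
      ((∀ n : ℕ, n ≤ N → Good 30 c h N r n → ∀ i, (n + h i).primeFactorsList.length ≤ r) ∧
        0 < V 5 30 3 N r) ∧
      ∀ u Y : ℕ, 30 ≤ u → (N : ℝ) ^ θ ≤ Y → ∀ l T : ℕ, (l ≤ l₀ ∨ T * V 5 30 3 N r ≤ x₀) →
        |(GS 30 c h N r l T u Y : ℝ) - Y * V 5 30 3 N r *
          ∑ j ∈ range l, Real.exp (-(T * V 5 30 3 N r)) * (T * V 5 30 3 N r) ^ j / j.factorial| ≤
        ε * (Y * V 5 30 3 N r) := by
  have hpat : Pool.Agent.Y879.GL.Pat 5 30 c h := by
    rcases hc with ⟨rfl, hc⟩ | ⟨rfl, hc⟩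
    · exact pat_ta c hc
    · exact pat_tb c hc
  refine ⟨?_, short hpat (by rcases hc with ⟨rfl, hc⟩ | ⟨rfl, hc⟩ <;> decide) θ hθ l₀ x₀ ε hε⟩
  intro n hn hnc i hi6 hp
  have key : ∀ q : ℕ, q.Prime → q < 6 → ¬ q ∣ n + i := by
    intro q hq hq6 hd
    have := (Nat.prime_dvd_prime_iff_eq hq hp).1 hd
    omega
  have h2 := key 2 Nat.prime_two (by norm_num)
  have h3 := key 3 Nat.prime_three (by norm_num)
  rw [Nat.dvd_iff_mod_eq_zero] at h2 h3
  rcases hc with ⟨rfl, hc⟩ | ⟨rfl, hc⟩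
  · rcases hc with rfl | rfl
    · have hi : i = 0 ∨ i = 2 ∨ i = 6 := by omega
      rcases hi with rfl | rfl | rfl
      · exact ⟨0, rfl⟩
      · exact ⟨1, rfl⟩
      · exact ⟨2, rfl⟩
    · have hi : i = 0 ∨ i = 2 ∨ i = 6 := by omega
      rcases hi with rfl | rfl | rfl
      · exact ⟨0, rfl⟩
      · exact ⟨1, rfl⟩
      · exact ⟨2, rfl⟩
  · rcases hc with rfl | rfl
    · have hi : i = 0 ∨ i = 4 ∨ i = 6 := by omega
      rcases hi with rfl | rfl | rfl
      · exact ⟨0, rfl⟩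
      · exact ⟨1, rfl⟩
      · exact ⟨2, rfl⟩
    · have hi : i = 0 ∨ i = 4 ∨ i = 6 := by omega
      rcases hi with rfl | rfl | rfl
      · exact ⟨0, rfl⟩
      · exact ⟨1, rfl⟩
      · exact ⟨2, rfl⟩

end Pool.Agent.Results.MP_dddec0_nt.TripletLawsShortIntervals
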